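import Pool.Agent.U682.FT.Main

/-!
# Existence of the free topological group of a metrizable space

The free group on a metrizable space, with the finest group topology for which the space maps
continuously, is Hausdorff and contains the space as a topological subspace. The Hausdorff property
is obtained from continuous families of parabolic matrices which are free at the integers.
-/

set_option autoImplicit false

namespace Pool.Agent.U427.FTG

open Filter Topology Set Matrix
open scoped Pool.Agent.U682.FT Pointwise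

/-- the parabolic matrix with fixed vector `(t, 1)` -/
noncomputable def par (t : ℝ) : GL (Fin 2) ℝ where
  val := !![1 + 5 * t, -(5 * t ^ 2); 5, 1 - 5 * t]
  inv := !![1 - 5 * t, 5 * t ^ 2; -5, 1 + 5 * t]
  val_inv := by
    ext i j
    fin_cases i <;> fin_cases j <;> simp <;> ring
  inv_val := by
    ext i j
    fin_cases i <;> fin_cases j <;> simp <;> ring

theorem continuous_par : Continuous par := by
  rw [Units.continuous_iff]
  constructor
  · show Continuous fun t : ℝ => !![1 + 5 * t, -(5 * t ^ 2); 5, 1 - 5 * t]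
    refine continuous_pi fun i => continuous_pi fun j => ?_
    fin_cases i <;> fin_cases j <;> simp <;> fun_prop
  · show Continuous fun t : ℝ => !![1 - 5 * t, 5 * t ^ 2; -5, 1 + 5 * t]
    refine continuous_pi fun i => continuous_pi fun j => ?_
    fin_cases i <;> fin_cases j <;> simp <;> fun_prop

/-- nonzero vectors of the plane -/
abbrev NV := {v : Fin 2 → ℝ // v ≠ 0}

noncomputable instance : MulAction (GL (Fin 2) ℝ) NV where
  smul g v := ⟨(g : Matrix (Fin 2) (Fin 2) ℝ) *ᵥ v.1, by
    intro h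
    apply v.2
    have h1 : ((g⁻¹ : GL (Fin 2) ℝ) : Matrix (Fin 2) (Fin 2) ℝ) *ᵥ
        ((g : Matrix (Fin 2) (Fin 2) ℝ) *ᵥ v.1) = v.1 := by
      rw [Matrix.mulVec_mulVec, ← Units.val_mul, inv_mul_cancel, Units.val_one,
        Matrix.one_mulVec]
    rw [← h1, h, Matrix.mulVec_zero]⟩
  one_smul v := Subtype.ext (by
    show ((1 : GL (Fin 2) ℝ) : Matrix (Fin 2) (Fin 2) ℝ) *ᵥ v.1 = v.1
    rw [Units.val_one, Matrix.one_mulVec])
  mul_smul g h v := Subtype.ext (by
    show ((g * h : GL (Fin 2) ℝ) : Matrix (Fin 2) (Fin 2) ℝ) *ᵥ v.1 =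
      (g : Matrix (Fin 2) (Fin 2) ℝ) *ᵥ ((h : Matrix (Fin 2) (Fin 2) ℝ) *ᵥ v.1)
    rw [Units.val_mul, Matrix.mulVec_mulVec])

theorem smul_val (g : GL (Fin 2) ℝ) (v : NV) :
    (g • v).1 = (g : Matrix (Fin 2) (Fin 2) ℝ) *ᵥ v.1 := rfl

/-- the invariant coordinate -/
def co (n : ℕ) (v : NV) : ℝ := v.1 0 - n * v.1 1

theorem co_par (n : ℕ) (v : NV) : co n (par n • v) = co n v ∧
    (par n • v).1 1 = v.1 1 + 5 * co n v := by
  simp only [co, smul_val, par]
  simp [Matrix.mulVec, dotProduct, Fin.sum_univ_two]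
  constructor <;> ring

theorem co_par_inv (n : ℕ) (v : NV) : co n ((par n)⁻¹ • v) = co n v ∧
    ((par n)⁻¹ • v).1 1 = v.1 1 - 5 * co n v := by
  have h1 := co_par n ((par n)⁻¹ • v)
  rw [smul_inv_smul] at h1
  refine ⟨h1.1.symm, ?_⟩
  rw [h1.2, h1.1]
  ring

/-- attracting set of `par n` -/
def XX (n : ℕ) : Set NV := {v | co n v = 0 ∨ 2 * co n v ^ 2 < v.1 1 * co n v}

/-- attracting set of the inverse of `par n` -/
def YY (n : ℕ) : Set NV := {v | co n v ≠ 0 ∧ v.1 1 * co n v < -(2 * co n v ^ 2)}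

theorem ne_of (n : ℕ) (v : NV) (h : co n v = 0) : v.1 1 ≠ 0 := by
  intro h1
  apply v.2
  have h0 : v.1 0 = 0 := by
    simp only [co, h1, mul_zero, sub_zero] at h
    exact h
  ext i
  fin_cases i
  · exact h0
  · exact h1

theorem four_lt {n : ℕ} {v : NV} (h : v ∈ XX n ∪ YY n) : 4 * co n v ^ 2 < v.1 1 ^ 2 := by
  by_cases h0 : co n v = 0
  · have := ne_of n v h0
    have h2 : 0 < v.1 1 ^ 2 := by positivity
    rw [h0]
    linarith
  · have hp : 0 < co n v ^ 2 := by positivity
    rcases h with (h | h) | ⟨_, h⟩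
    · exact absurd h h0
    · have h2 : 0 < (v.1 1 * co n v - 2 * co n v ^ 2) * (v.1 1 * co n v + 2 * co n v ^ 2) :=
        mul_pos (by linarith) (by linarith)
      have h3 : 0 < (v.1 1 ^ 2 - 4 * co n v ^ 2) * co n v ^ 2 := by nlinarith
      have := (mul_pos_iff_of_pos_right hp).1 h3
      linarith
    · have h2 : 0 < (-(2 * co n v ^ 2) - v.1 1 * co n v) * (2 * co n v ^ 2 - v.1 1 * co n v) :=
        mul_pos (by linarith) (by linarith)
      have h3 : 0 < (v.1 1 ^ 2 - 4 * co n v ^ 2) * co n v ^ 2 := by nlinarith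
      have := (mul_pos_iff_of_pos_right hp).1 h3
      linarith

theorem sep {n m : ℕ} (hnm : n ≠ m) {v : NV} (h1 : v ∈ XX n ∪ YY n) (h2 : v ∈ XX m ∪ YY m) :
    False := by
  have h3 := four_lt h1
  have h4 := four_lt h2
  have h5 : (co n v - co m v) ^ 2 = ((m : ℝ) - n) ^ 2 * v.1 1 ^ 2 := by
    simp only [co]; ring
  have h6 : (1 : ℝ) ≤ ((m : ℝ) - n) ^ 2 := by
    have : (1 : ℤ) ≤ ((m : ℤ) - n) ^ 2 := by
      have : ((m : ℤ) - n) ≠ 0 := by omega
      have := pow_pos (abs_pos.2 this) 2
      rw [sq_abs] at this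
      omega
    exact_mod_cast this
  have h7 : (co n v - co m v) ^ 2 ≤ 2 * co n v ^ 2 + 2 * co m v ^ 2 := by
    nlinarith [sq_nonneg (co n v + co m v)]
  have h8 : v.1 1 ^ 2 ≤ ((m : ℝ) - n) ^ 2 * v.1 1 ^ 2 := le_mul_of_one_le_left (sq_nonneg _) h6
  linarith

theorem par_injective : Function.Injective (FreeGroup.lift fun n : ℕ => par n) := by
  refine FreeGroup.injective_lift_of_ping_pong (fun n : ℕ => par n) XX YY ?_ ?_ ?_ ?_ ?_ ?_
  · intro n
    refine ⟨⟨![n, 1], ?_⟩, Or.inl ?_⟩
    · intro h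
      have := congrFun h 1
      simp at this
    · simp [co]
  · intro n m hnm
    rw [Function.onFun, Set.disjoint_left]
    exact fun v h1 h2 => sep hnm (Or.inl h1) (Or.inl h2)
  · intro n m hnm
    rw [Function.onFun, Set.disjoint_left]
    exact fun v h1 h2 => sep hnm (Or.inr h1) (Or.inr h2)
  · intro n m
    rw [Set.disjoint_left]
    intro v h1 h2
    by_cases hnm : n = m
    · subst hnm
      obtain ⟨h3, h4⟩ := h2
      rcases h1 with h1 | h1
      · exact h3 h1
      · have := sq_nonneg (co n v)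
        linarith
    · exact sep hnm (Or.inl h1) (Or.inr h2)
  · rintro n _ ⟨v, hv, rfl⟩
    obtain ⟨h1, h2⟩ := co_par n v
    by_cases h0 : co n v = 0
    · exact Or.inl (h1.trans h0)
    · right
      show 2 * co n (par n • v) ^ 2 < (par n • v).1 1 * co n (par n • v)
      rw [h1, h2]
      have h3 : ¬ (v.1 1 * co n v < -(2 * co n v ^ 2)) := fun h => hv ⟨h0, h⟩
      have h4 : 0 < co n v ^ 2 := by positivity
      nlinarith
  · rintro n _ ⟨v, hv, rfl⟩
    obtain ⟨h1, h2⟩ := co_par_inv n v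
    have h0 : co n v ≠ 0 := fun h => hv (Or.inl h)
    have h3 : ¬ (2 * co n v ^ 2 < v.1 1 * co n v) := fun h => hv (Or.inr h)
    have h4 : 0 < co n v ^ 2 := by positivity
    refine ⟨?_, ?_⟩
    · show co n ((par n)⁻¹ • v) ≠ 0
      rw [h1]; exact h0
    · show ((par n)⁻¹ • v).1 1 * co n ((par n)⁻¹ • v) < -(2 * co n ((par n)⁻¹ • v) ^ 2)
      rw [h1, h2]
      nlinarith

theorem lift_eq_of_agree {X G : Type} [Group G] (f g : X → G) (L : List (X × Bool))
    (h : ∀ p ∈ L, f p.1 = g p.1) :
    FreeGroup.lift f (FreeGroup.mk L) = FreeGroup.lift g (FreeGroup.mk L) := by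
  rw [FreeGroup.lift_mk, FreeGroup.lift_mk]
  congr 1
  apply List.map_congr_left
  rintro ⟨x, b⟩ hp
  rw [show f x = g x from h _ hp]

/-- some continuous map to `GL₂(ℝ)` does not kill the element `w` -/
theorem exists_ne {X : Type} [TopologicalSpace X] [TopologicalSpace.MetrizableSpace X]
    (w : FreeGroup X) (hw : w ≠ 1) :
    ∃ f : X → GL (Fin 2) ℝ, Continuous f ∧ FreeGroup.lift f w ≠ 1 := by
  classical
  let _ : MetricSpace X := TopologicalSpace.metrizableSpaceMetric X
  obtain ⟨L, rfl⟩ := Quot.exists_rep w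
  change FreeGroup.mk L ≠ 1 at hw
  change ∃ f : X → GL (Fin 2) ℝ, Continuous f ∧ FreeGroup.lift f (FreeGroup.mk L) ≠ 1
  set S : Set X := {x | x ∈ L.map Prod.fst} with hS
  have hSf : S.Finite := List.finite_toSet _
  have hne : S.Nonempty := by
    rcases L with _ | ⟨a, L⟩
    · exact absurd rfl hw
    · exact ⟨a.1, by simp [hS]⟩
  obtain ⟨x0, hx0⟩ := hne
  haveI : Finite S := hSf
  obtain ⟨N, ⟨e⟩⟩ := Finite.exists_equiv_fin S
  -- a continuous function with distinct natural values on `S`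
  obtain ⟨g, hg⟩ := (ContinuousMap.exists_restrict_eq (Y := ℝ) hSf.isClosed
    ⟨fun s : S => ((e s : ℕ) : ℝ), by
      haveI : DiscreteTopology S := Finite.instDiscreteTopology
      exact continuous_of_discreteTopology⟩)
  have hg' : ∀ s : S, g s = ((e s : ℕ) : ℝ) := fun s => by
    have := congrArg (fun φ : C(S, ℝ) => φ s) hg
    simpa using this
  refine ⟨fun x => par (g x), continuous_par.comp g.continuous, ?_⟩
  intro h
  let f0 : X → ℕ := fun x => if hx : x ∈ S then (e ⟨x, hx⟩ : ℕ) else 0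
  let k : ℕ → X := fun n => if hn : n < N then (e.symm ⟨n, hn⟩ : X) else x0
  have hk : ∀ x ∈ S, k (f0 x) = x := by
    intro x hx
    have h1 : f0 x = (e ⟨x, hx⟩ : ℕ) := dif_pos hx
    have h2 : k (f0 x) = (e.symm ⟨f0 x, by rw [h1]; exact (e ⟨x, hx⟩).2⟩ : X) := by
      apply dif_pos
    rw [h2]
    have h3 : (⟨f0 x, by rw [h1]; exact (e ⟨x, hx⟩).2⟩ : Fin N) = e ⟨x, hx⟩ := Fin.ext h1
    rw [h3, Equiv.symm_apply_apply]
  have hmem : ∀ p ∈ L, p.1 ∈ S := fun p hp => List.mem_map.2 ⟨p, hp, rfl⟩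
  have h1 : FreeGroup.lift (fun n : ℕ => par n) (FreeGroup.map f0 (FreeGroup.mk L)) = 1 := by
    rw [← h, FreeGroup.map_eq_lift, ← MonoidHom.comp_apply]
    have : (FreeGroup.lift fun n : ℕ => par n).comp (FreeGroup.lift (FreeGroup.of ∘ f0)) =
        FreeGroup.lift (fun x => par ((f0 x : ℕ) : ℝ)) := by
      ext x
      simp
    rw [this]
    apply lift_eq_of_agree
    intro p hp
    have hp' := hmem p hp
    rw [hg' ⟨p.1, hp'⟩]
    have h1 : f0 p.1 = (e ⟨p.1, hp'⟩ : ℕ) := dif_pos hp'
    rw [h1]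
  have h2 : FreeGroup.map f0 (FreeGroup.mk L) = 1 := by
    apply par_injective
    rw [h1, map_one]
  have h3 : FreeGroup.map k (FreeGroup.map f0 (FreeGroup.mk L)) = FreeGroup.mk L := by
    rw [FreeGroup.map.comp, FreeGroup.map.mk]
    congr 1
    conv_rhs => rw [← List.map_id L]
    apply List.map_congr_left
    rintro ⟨x, b⟩ hp
    simp only [Function.comp, id]
    rw [hk x (hmem _ hp)]
  rw [h2, map_one] at h3
  exact hw h3.symm

/-- the free group with the Markov topology is Hausdorff -/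
theorem t2 {X : Type} [TopologicalSpace X] [TopologicalSpace.MetrizableSpace X] :
    T2Space (FreeGroup X) := by
  have h1 : IsClosed ({1} : Set (FreeGroup X)) := by
    have h2 : ({1} : Set (FreeGroup X)) =
        ⋂ f : {f : X → GL (Fin 2) ℝ // Continuous f}, (FreeGroup.lift f.1) ⁻¹' {1} := by
      ext w
      simp only [mem_singleton_iff, mem_iInter, mem_preimage, Subtype.forall]
      constructor
      · rintro rfl f _
        exact map_one _
      · intro h
        by_contra hw
        obtain ⟨f, hf, hfw⟩ := exists_ne w hw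
        exact hfw (h f hf)
    rw [h2]
    exact isClosed_iInter fun f =>
      isClosed_singleton.preimage (Pool.Agent.U682.FT.continuous_lift f.2)
  haveI : T1Space (FreeGroup X) := IsTopologicalGroup.t1Space _ h1
  infer_instance

/-- the space is embedded in the free group -/
theorem embedding {X : Type} [TopologicalSpace X] [TopologicalSpace.MetrizableSpace X] :
    IsEmbedding (FreeGroup.of : X → FreeGroup X) := by
  let _ : MetricSpace X := TopologicalSpace.metrizableSpaceMetric X
  refine ⟨⟨le_antisymm (Pool.Agent.U682.FT.continuous_of (X := X)).le_induced ?_⟩,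
    FreeGroup.of_injective⟩
  intro U hU
  refine (@isOpen_iff_mem_nhds X (TopologicalSpace.induced FreeGroup.of inferInstance) U).2 ?_
  intro x hx
  rw [nhds_induced, mem_comap]
  obtain ⟨ε, hε, hεU⟩ := Metric.isOpen_iff.1 hU x hx
  let d : X → Multiplicative ℝ := fun y => Multiplicative.ofAdd (dist y x)
  have hd : Continuous d := continuous_ofAdd.comp (continuous_id.dist continuous_const)
  have hD := Pool.Agent.U682.FT.continuous_lift hd
  refine ⟨{w | Multiplicative.toAdd (FreeGroup.lift d w) < ε}, ?_, ?_⟩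
  · refine IsOpen.mem_nhds (isOpen_lt (continuous_toAdd.comp hD) continuous_const) ?_
    simp [d, hε]
  · intro y hy
    apply hεU
    simpa [d] using hy

end Pool.Agent.U427.FTG
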